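import Pool.Agent.R299.WS.Shift

/-!
# Parameters of the construction
-/

namespace Pool.Agent.R299.WS

open Filter Set
open scoped Topology ZeroAtInfty

/-- the constant `D r = exp (2 (r + 1) M r)` -/
noncomputable def DD (M : ℕ → ℕ) (r : ℕ) : ℝ := Real.exp (2 * ((r : ℝ) + 1) * M r)

/-- parameters -/
structure Par (q : ℕ → ℕ) (B : ℕ → ℝ) where
  M : ℕ → ℕ
  α : ℕ → ℝ
  m : ℕ → ℕ
  hα : ∀ r, 0 < α r
  hq : ∀ r, q r ≤ M r
  hM : ∀ r, 4 ^ (m r) * (32 * (M r + 1)) ≤ M (r + 1)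
  h0 : α 0 * B 0 * DD M 0 ≤ 1
  h1 : ∀ r, α (r + 1) * B (r + 1) * DD M (r + 1) ≤ (1 / 2) ^ (r + 1) * α r
  hm : ∀ r : ℕ, ((r : ℝ) + 1) * (DD M r * B r / α r) ≤ m r

theorem exists_par (q : ℕ → ℕ) (B : ℕ → ℝ) (hB : ∀ r, 1 ≤ B r) : Nonempty (Par q B) := by
  -- state `(M, α)`
  let mf : ℕ → ℕ × ℝ → ℕ := fun r s =>
    ⌈((r : ℝ) + 1) * (Real.exp (2 * ((r : ℝ) + 1) * s.1) * B r / s.2)⌉₊
  let Mf : ℕ → ℕ × ℝ → ℕ := fun r s => 4 ^ (mf r s) * (32 * (s.1 + 1)) + q (r + 1)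
  let st : ℕ → ℕ × ℝ := fun r => Nat.rec (q 0, 1 / (B 0 * Real.exp (2 * ((0 : ℕ) + 1) * q 0)))
    (fun r s => (Mf r s, (1 / 2) ^ (r + 1) * s.2 /
      (B (r + 1) * Real.exp (2 * (((r + 1 : ℕ) : ℝ) + 1) * Mf r s)))) r
  have hst : ∀ r, st (r + 1) = (Mf r (st r), (1 / 2) ^ (r + 1) * (st r).2 /
      (B (r + 1) * Real.exp (2 * (((r + 1 : ℕ) : ℝ) + 1) * Mf r (st r)))) := fun r => rfl
  have hB0 : ∀ r, 0 < B r := fun r => lt_of_lt_of_le one_pos (hB r)
  have hαp : ∀ r, 0 < (st r).2 := by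
    intro r
    induction r with
    | zero =>
      change 0 < 1 / (B 0 * Real.exp (2 * ((0 : ℕ) + 1) * q 0))
      have := hB0 0
      positivity
    | succ r ih =>
      rw [hst]
      have := hB0 (r + 1)
      positivity
  refine ⟨⟨fun r => (st r).1, fun r => (st r).2, fun r => mf r (st r), hαp, ?_, ?_, ?_, ?_, ?_⟩⟩
  · intro r
    rcases r with _ | r
    · exact le_rfl
    · change q (r + 1) ≤ Mf r (st r)
      exact Nat.le_add_left _ _
  · intro r
    change _ ≤ Mf r (st r)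
    exact Nat.le_add_right _ _
  · change 1 / (B 0 * Real.exp (2 * ((0 : ℕ) + 1) * q 0)) * B 0 * Real.exp (2 * ((0 : ℕ) + 1) * q 0) ≤ 1
    have := hB0 0
    have h2 := Real.exp_pos (2 * ((0 : ℕ) + 1) * (q 0 : ℝ))
    rw [mul_assoc, one_div, inv_mul_cancel₀ (by positivity)]
  · intro r
    have := hB0 (r + 1)
    change (1 / 2) ^ (r + 1) * (st r).2 /
      (B (r + 1) * Real.exp (2 * (((r + 1 : ℕ) : ℝ) + 1) * Mf r (st r))) * B (r + 1) *
      Real.exp (2 * (((r + 1 : ℕ) : ℝ) + 1) * Mf r (st r)) ≤ _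
    rw [mul_assoc, div_mul_cancel₀ _ (by positivity)]
  · intro r
    exact Nat.le_ceil _

variable {q : ℕ → ℕ} {B : ℕ → ℝ} (P : Par q B)

namespace Par

theorem M_lt (r : ℕ) : P.M r < P.M (r + 1) := by
  have h1 := P.hM r
  have h2 : 1 ≤ 4 ^ (P.m r) := Nat.one_le_pow _ _ (by norm_num)
  nlinarith

theorem M_strict : StrictMono P.M := strictMono_nat_of_lt_succ P.M_lt

/-- the exponent function -/
def g (n : ℕ) : ℕ := ((Finset.range (n + 1)).filter fun i => P.M i ≤ n).card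

theorem g_le {r i : ℕ} (h : i < P.M (r + 1)) : P.g i ≤ r + 1 := by
  unfold g
  rw [← Finset.card_range (r + 1)]
  apply Finset.card_le_card
  intro j hj
  rw [Finset.mem_filter] at hj
  rw [Finset.mem_range]
  exact P.M_strict.lt_iff_lt.1 (lt_of_le_of_lt hj.2 h)

theorem le_g {r i : ℕ} (h : P.M r ≤ i) : r + 1 ≤ P.g i := by
  unfold g
  rw [← Finset.card_range (r + 1)]
  apply Finset.card_le_card
  intro j hj
  rw [Finset.mem_range] at hj
  have h1 : P.M j ≤ i := (P.M_strict.monotone (by omega)).trans h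
  rw [Finset.mem_filter, Finset.mem_range]
  exact ⟨lt_of_le_of_lt ((P.M_strict.id_le j).trans h1) (Nat.lt_succ_self i), h1⟩

theorem g_mono : Monotone P.g := by
  intro a b hab
  unfold g
  apply Finset.card_le_card
  intro j hj
  rw [Finset.mem_filter, Finset.mem_range] at hj ⊢
  exact ⟨by omega, hj.2.trans hab⟩

theorem g_tendsto : Tendsto P.g atTop atTop := by
  rw [tendsto_atTop]
  intro K
  filter_upwards [eventually_ge_atTop (P.M K)] with n hn
  have := P.le_g hn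
  omega

theorem DD_one (r : ℕ) : 1 ≤ DD P.M r := by
  unfold DD
  rw [Real.one_le_exp_iff]
  positivity

theorem α_anti (hB : ∀ r, 1 ≤ B r) : Antitone P.α := by
  apply antitone_nat_of_succ_le
  intro r
  have h1 := P.h1 r
  have h2 := P.DD_one (r + 1)
  have h3 := hB (r + 1)
  have h4 := P.hα (r + 1)
  have h5 := P.hα r
  have h6 : P.α (r + 1) ≤ P.α (r + 1) * B (r + 1) * DD P.M (r + 1) := by
    calc P.α (r + 1) = P.α (r + 1) * 1 * 1 := by ring
      _ ≤ _ := by gcongr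
  have h7 : (1 / 2 : ℝ) ^ (r + 1) * P.α r ≤ 1 * P.α r := by
    gcongr
    exact pow_le_one₀ (by norm_num) (by norm_num)
  linarith

theorem α_le_one (hB : ∀ r, 1 ≤ B r) (r : ℕ) : P.α r ≤ 1 := by
  refine (P.α_anti hB (Nat.zero_le r)).trans ?_
  refine le_trans ?_ P.h0
  have h2 := P.DD_one 0
  have h3 := hB 0
  have h4 := P.hα 0
  calc P.α 0 = P.α 0 * 1 * 1 := by ring
    _ ≤ _ := by gcongr

theorem α_bound (hB : ∀ r, 1 ≤ B r) (r : ℕ) :
    P.α r * B r * DD P.M r ≤ (1 / 2) ^ r := by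
  rcases r with _ | r
  · simpa using P.h0
  · refine (P.h1 r).trans ?_
    have := P.α_le_one hB r
    calc (1 / 2 : ℝ) ^ (r + 1) * P.α r ≤ (1 / 2 : ℝ) ^ (r + 1) * 1 := by gcongr
      _ = _ := mul_one _

theorem α_bound' (hB : ∀ r, 1 ≤ B r) {r s : ℕ} (hrs : r < s) :
    P.α s * B s * DD P.M s ≤ (1 / 2) ^ (r + 1) * P.α r := by
  obtain ⟨s, rfl⟩ : ∃ t, s = t + 1 := ⟨s - 1, by omega⟩
  refine (P.h1 s).trans ?_
  have h1 : P.α s ≤ P.α r := P.α_anti hB (by omega)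
  have h2 : (1 / 2 : ℝ) ^ (s + 1) ≤ (1 / 2) ^ (r + 1) :=
    pow_le_pow_of_le_one (by norm_num) (by norm_num) (by omega)
  have h3 := P.hα s
  gcongr

/-- times -/
def n (k : ℕ × ℕ) : ℕ := 4 ^ k.2 * (32 * (P.M k.1 + 1))

/-- valid time indices -/
def V (k : ℕ × ℕ) : Prop := k.2 < P.m k.1

theorem n_ge (k : ℕ × ℕ) : 32 * (P.M k.1 + 1) ≤ P.n k := by
  unfold n
  exact Nat.le_mul_of_pos_left _ (by positivity)

theorem n_le {k : ℕ × ℕ} (hk : P.V k) : 4 * P.n k ≤ P.M (k.1 + 1) := by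
  refine le_trans ?_ (P.hM k.1)
  unfold n
  rw [← mul_assoc, ← pow_succ']
  apply Nat.mul_le_mul_right
  exact Nat.pow_le_pow_right (by norm_num) hk

theorem n_lt_of_lt {k l : ℕ × ℕ} (hk : P.V k) (h : k.1 < l.1) : 4 * P.n k ≤ P.M l.1 :=
  (P.n_le hk).trans (P.M_strict.monotone h)

theorem lac {k l : ℕ × ℕ} (hk : P.V k) (hl : P.V l) (hkl : k ≠ l) :
    4 * P.n k ≤ P.n l ∨ 4 * P.n l ≤ P.n k := by
  rcases lt_trichotomy k.1 l.1 with h | h | h
  · left
    have h1 := P.n_lt_of_lt hk h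
    have h2 := P.n_ge l
    omega
  · have h2 : k.2 ≠ l.2 := fun h2 => hkl (Prod.ext h h2)
    rcases lt_or_gt_of_ne h2 with h3 | h3
    · left
      unfold n
      rw [h, ← mul_assoc, ← pow_succ']
      apply Nat.mul_le_mul_right
      exact Nat.pow_le_pow_right (by norm_num) h3
    · right
      unfold n
      rw [h, ← mul_assoc, ← pow_succ']
      apply Nat.mul_le_mul_right
      exact Nat.pow_le_pow_right (by norm_num) h3
  · right
    have h1 := P.n_lt_of_lt hl h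
    have h2 := P.n_ge k
    omega

theorem q32 (k : ℕ × ℕ) : 32 * q k.1 + 32 ≤ P.n k := by
  have := P.n_ge k
  have := P.hq k.1
  omega

/-- position `p` is in the support of summand `k` -/
def Act (k : ℕ × ℕ) (p : ℤ) : Prop := P.V k ∧ |p - P.n k| ≤ q k.1

theorem act_unique {k l : ℕ × ℕ} {p : ℤ} (hk : P.Act k p) (hl : P.Act l p) : k = l := by
  by_contra hkl
  have h1 := P.q32 k
  have h2 := P.q32 l
  have h3 := abs_le.1 hk.2
  have h4 := abs_le.1 hl.2
  rcases P.lac hk.1 hl.1 hkl with h | h <;> omega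

/-- the main separation property -/
theorem sep {k k' l l' : ℕ × ℕ} {p : ℤ} (hk : P.V k) (hk' : P.V k') (hkk : k.1 = k'.1)
    (hl : P.Act l (p + P.n k)) (hl' : P.Act l' (p + P.n k'))
    (hlk : l ≠ k) (hlk' : l' ≠ k') (h1 : l.1 ≤ k.1) (h1' : l'.1 ≤ k.1) : k = k' := by
  by_contra hne
  -- symmetric statement
  have key : ∀ k k' l l' : ℕ × ℕ, P.V k → P.V k' → k.1 = k'.1 → P.Act l (p + P.n k) →
      P.Act l' (p + P.n k') → l' ≠ k' → l.1 ≤ k.1 → l'.1 ≤ k.1 → 4 * P.n k ≤ P.n k' → False := by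
    intro k k' l l' hk hk' hkk hl hl' hlk' h1 h1' h
    have a1 := abs_le.1 hl.2
    have a2 := abs_le.1 hl'.2
    have b1 := P.q32 l
    have b2 := P.q32 l'
    have b3 : q l.1 ≤ P.M k.1 := (P.hq l.1).trans (P.M_strict.monotone h1)
    have b4 : q l'.1 ≤ P.M k.1 := (P.hq l'.1).trans (P.M_strict.monotone h1')
    have b5 := P.n_ge k
    have b6 := P.n_ge k'
    rw [← hkk] at b6
    rcases P.lac hl'.1 hk' hlk' with c1 | c1
    · omega
    · rcases eq_or_ne l l' with rfl | hll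
      · omega
      · rcases P.lac hl.1 hl'.1 hll with c2 | c2 <;> omega
  rcases P.lac hk hk' hne with h | h
  · exact key k k' l l' hk hk' hkk hl hl' hlk' h1 h1' h
  · exact key k' k l' l hk' hk hkk.symm hl' hl hlk (hkk ▸ h1') (hkk ▸ h1) h

/-- exponent bound, block not later -/
theorem E1 {k l : ℕ × ℕ} {p : ℤ} (hk : P.V k) (hl : P.Act l (p + P.n k)) (hlk : l ≠ k)
    (h1 : l.1 ≤ k.1) :
    G P.g (P.n k) + G P.g p - G P.g (P.n l) - G P.g (p + P.n k - P.n l) ≤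
      2 * ((k.1 : ℤ) + 1) * P.M k.1 := by
  have hj := abs_le.1 hl.2
  set j : ℤ := p + P.n k - P.n l with hjdef
  have hqM : (q l.1 : ℤ) ≤ P.M k.1 := by
    exact_mod_cast (P.hq l.1).trans (P.M_strict.monotone h1)
  have hqn := P.q32 l
  have hrhs : 0 ≤ 2 * ((k.1 : ℤ) + 1) * P.M k.1 := by positivity
  rcases P.lac hl.1 hk hlk with h | h
  · -- `l` before `k`
    have hp : p = j - (P.n k - P.n l) := by rw [hjdef]; ring
    have e1 : G P.g (P.n k) - G P.g (P.n l) ≤ ((k.1 : ℤ) + 1) * (P.n k - P.n l) := by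
      apply G_le (by omega)
      intro i hi1 hi2
      have h3 : i.natAbs < P.M (k.1 + 1) := by
        have := P.n_le hk
        have := P.n_ge k
        omega
      exact_mod_cast P.g_le h3
    have e2 : ((k.1 : ℤ) + 1) * (P.n k - P.n l - 2 * P.M k.1) ≤ G P.g j - G P.g p := by
      rcases le_or_gt p (-(P.M k.1 : ℤ)) with h4 | h4
      · have e3 : ((k.1 : ℤ) + 1) * (-(P.M k.1 : ℤ) - p) ≤ G P.g (-(P.M k.1 : ℤ)) - G P.g p := by
          apply G_ge h4
          intro i hi1 hi2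
          have h3 : P.M k.1 ≤ i.natAbs := by omega
          exact_mod_cast P.le_g h3
        have e4 : G P.g (-(P.M k.1 : ℤ)) ≤ G P.g j := G_mono _ _ (by omega)
        have e5 : ((k.1 : ℤ) + 1) * (P.n k - P.n l - 2 * P.M k.1) ≤
            ((k.1 : ℤ) + 1) * (-(P.M k.1 : ℤ) - p) := by
          apply mul_le_mul_of_nonneg_left _ (by positivity)
          omega
        linarith
      · have e4 : G P.g p ≤ G P.g j := G_mono _ _ (by omega)
        have e5 : ((k.1 : ℤ) + 1) * (P.n k - P.n l - 2 * P.M k.1) ≤ 0 := by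
          apply mul_nonpos_of_nonneg_of_nonpos (by positivity)
          omega
        linarith
    have e6 : ((k.1 : ℤ) + 1) * (P.n k - P.n l - 2 * P.M k.1) =
        ((k.1 : ℤ) + 1) * (P.n k - P.n l) - 2 * ((k.1 : ℤ) + 1) * P.M k.1 := by ring
    linarith
  · -- `l` after `k` (same block)
    have e1 := G_compare P.g_mono (j := j) (n := P.n k) (by
      rw [abs_le]
      have := P.n_ge k
      omega) (P.n l - P.n k)
    have e2 : j + ((P.n l - P.n k : ℕ) : ℤ) = p := by omega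
    have e3 : (P.n k : ℤ) + ((P.n l - P.n k : ℕ) : ℤ) = P.n l := by omega
    rw [e2, e3] at e1
    linarith

/-- exponent bound, later block -/
theorem E2 {k l : ℕ × ℕ} {p : ℤ} (hk : P.V k) (hl : P.Act l (p + P.n k)) (h1 : k.1 < l.1) :
    G P.g (P.n k) + G P.g p - G P.g (P.n l) - G P.g (p + P.n k - P.n l) ≤
      2 * ((l.1 : ℤ) + 1) * P.M l.1 := by
  have hj := abs_le.1 hl.2
  set j : ℤ := p + P.n k - P.n l with hjdef
  have hqM : (q l.1 : ℤ) ≤ P.M l.1 := by exact_mod_cast P.hq l.1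
  have hnk : 4 * (P.n k : ℤ) ≤ P.M l.1 := by exact_mod_cast P.n_lt_of_lt hk h1
  have hnl := P.n_ge l
  have hnl2 := P.n_le hl.1
  have hg : ∀ i : ℤ, i.natAbs < P.M (l.1 + 1) → ((P.g i.natAbs : ℕ) : ℤ) ≤ (l.1 : ℤ) + 1 :=
    fun i hi => by exact_mod_cast P.g_le hi
  rcases le_or_gt j (P.n k) with h4 | h4
  · have e1 : G P.g p ≤ G P.g (P.n l) := G_mono _ _ (by omega)
    have e2 : G P.g (P.n k) ≤ G P.g (P.M l.1) := G_mono _ _ (by omega)
    have e3 : G P.g (-(P.M l.1 : ℤ)) ≤ G P.g j := G_mono _ _ (by omega)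
    have e4 : G P.g (P.M l.1) - G P.g (-(P.M l.1 : ℤ)) ≤
        ((l.1 : ℤ) + 1) * ((P.M l.1 : ℤ) - -(P.M l.1 : ℤ)) := by
      apply G_le (by omega)
      intro i hi1 hi2
      apply hg
      have := P.M_lt l.1
      omega
    have e5 : ((l.1 : ℤ) + 1) * ((P.M l.1 : ℤ) - -(P.M l.1 : ℤ)) =
        2 * ((l.1 : ℤ) + 1) * P.M l.1 := by ring
    linarith
  · have e1 : G P.g p - G P.g (P.n l) ≤ ((l.1 : ℤ) + 1) * (p - P.n l) := by
      apply G_le (by omega)
      intro i hi1 hi2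
      apply hg
      omega
    have e2 : G P.g (P.n k) ≤ G P.g j := G_mono _ _ h4.le
    have e3 : ((l.1 : ℤ) + 1) * (p - P.n l) ≤ ((l.1 : ℤ) + 1) * P.M l.1 := by
      apply mul_le_mul_of_nonneg_left _ (by positivity)
      omega
    have e4 : 0 ≤ ((l.1 : ℤ) + 1) * P.M l.1 := by positivity
    linarith

/-- exponent bound for the vector itself -/
theorem E0 {l : ℕ × ℕ} {p : ℤ} (hl : P.Act l p) :
    G P.g p - G P.g (P.n l) - G P.g (p - P.n l) ≤ 2 * ((l.1 : ℤ) + 1) * P.M l.1 := by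
  have hj := abs_le.1 hl.2
  set j : ℤ := p - P.n l with hjdef
  have hqM : (q l.1 : ℤ) ≤ P.M l.1 := by exact_mod_cast P.hq l.1
  have hnl := P.n_ge l
  have hnl2 := P.n_le hl.1
  have hg : ∀ i : ℤ, i.natAbs < P.M (l.1 + 1) → ((P.g i.natAbs : ℕ) : ℤ) ≤ (l.1 : ℤ) + 1 :=
    fun i hi => by exact_mod_cast P.g_le hi
  have e4 : 0 ≤ ((l.1 : ℤ) + 1) * P.M l.1 := by positivity
  have hG0 := G_zero P.g
  rcases le_or_gt 0 j with h4 | h4
  · have e1 : G P.g p - G P.g (P.n l) ≤ ((l.1 : ℤ) + 1) * (p - P.n l) := by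
      apply G_le (by omega)
      intro i hi1 hi2
      apply hg
      omega
    have e2 : G P.g 0 ≤ G P.g j := G_mono _ _ h4
    have e3 : ((l.1 : ℤ) + 1) * (p - P.n l) ≤ ((l.1 : ℤ) + 1) * P.M l.1 := by
      apply mul_le_mul_of_nonneg_left _ (by positivity)
      omega
    linarith
  · have e1 : G P.g p ≤ G P.g (P.n l) := G_mono _ _ (by omega)
    have e2 : G P.g 0 - G P.g j ≤ ((l.1 : ℤ) + 1) * (0 - j) := by
      apply G_le h4.le
      intro i hi1 hi2
      apply hg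
      have := P.M_lt l.1
      omega
    have e3 : ((l.1 : ℤ) + 1) * (0 - j) ≤ ((l.1 : ℤ) + 1) * P.M l.1 := by
      apply mul_le_mul_of_nonneg_left _ (by positivity)
      omega
    linarith

end Par

end Pool.Agent.R299.WS
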