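import Pool.Agent.R299.WS.Tools

/-!
# Compact bilateral weighted shifts on `c₀(ℤ)`
-/

namespace Pool.Agent.R299.WS

open Filter Set
open scoped Topology ZeroAtInfty

/-- `G n - G (n - 1) = g |n|`, `G 0 = 0` -/
def G (g : ℕ → ℕ) : ℤ → ℤ
  | Int.ofNat n => ∑ i ∈ Finset.range n, (g (i + 1) : ℤ)
  | Int.negSucc n => -∑ i ∈ Finset.range (n + 1), (g i : ℤ)

theorem G_zero (g : ℕ → ℕ) : G g 0 = 0 := by
  change G g (Int.ofNat 0) = 0
  simp [G]

theorem G_succ (g : ℕ → ℕ) (n : ℤ) : G g (n + 1) = G g n + g (n + 1).natAbs := by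
  rcases n with n | n
  · have : (Int.ofNat n + 1 : ℤ) = Int.ofNat (n + 1) := rfl
    rw [this]
    simp only [G, Finset.sum_range_succ]
    congr 1
  · rcases n with _ | n
    · have : (Int.negSucc 0 + 1 : ℤ) = Int.ofNat 0 := rfl
      rw [this]
      simp [G]
    · have : (Int.negSucc (n + 1) + 1 : ℤ) = Int.negSucc n := rfl
      rw [this]
      simp only [G]
      rw [Finset.sum_range_succ _ (n + 1)]
      have h2 : (Int.negSucc n).natAbs = n + 1 := rfl
      rw [h2]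
      ring

variable {g : ℕ → ℕ}

theorem G_add (n : ℤ) (k : ℕ) :
    G g (n + k) = G g n + ∑ i ∈ Finset.range k, (g (n + i + 1).natAbs : ℤ) := by
  induction k with
  | zero => simp
  | succ k ih =>
    rw [Finset.sum_range_succ, ← add_assoc, ← ih]
    push_cast
    rw [← add_assoc, G_succ]

theorem G_mono (a b : ℤ) (h : a ≤ b) : G g a ≤ G g b := by
  obtain ⟨k, rfl⟩ := Int.le.dest h
  rw [G_add]
  have : 0 ≤ ∑ i ∈ Finset.range k, (g (a + i + 1).natAbs : ℤ) :=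
    Finset.sum_nonneg fun _ _ => by positivity
  linarith

theorem G_le {a b : ℤ} (h : a ≤ b) {c : ℤ}
    (hg : ∀ i, a < i → i ≤ b → (g i.natAbs : ℤ) ≤ c) : G g b - G g a ≤ c * (b - a) := by
  obtain ⟨k, rfl⟩ := Int.le.dest h
  rw [G_add]
  have : ∑ i ∈ Finset.range k, (g (a + i + 1).natAbs : ℤ) ≤ ∑ i ∈ Finset.range k, c := by
    apply Finset.sum_le_sum
    intro i hi
    have := Finset.mem_range.1 hi
    apply hg <;> omega
  rw [Finset.sum_const, Finset.card_range, nsmul_eq_mul] at this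
  linarith

theorem G_ge {a b : ℤ} (h : a ≤ b) {c : ℤ}
    (hg : ∀ i, a < i → i ≤ b → c ≤ (g i.natAbs : ℤ)) : c * (b - a) ≤ G g b - G g a := by
  obtain ⟨k, rfl⟩ := Int.le.dest h
  rw [G_add]
  have : ∑ i ∈ Finset.range k, c ≤ ∑ i ∈ Finset.range k, (g (a + i + 1).natAbs : ℤ) := by
    apply Finset.sum_le_sum
    intro i hi
    have := Finset.mem_range.1 hi
    apply hg <;> omega
  rw [Finset.sum_const, Finset.card_range, nsmul_eq_mul] at this
  linarith

/-- comparison of increments -/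
theorem G_compare (hg : Monotone g) {j n : ℤ} (h1 : |j| ≤ n) (k : ℕ) :
    G g (j + k) - G g j ≤ G g (n + k) - G g n := by
  rw [G_add, G_add]
  have : ∑ i ∈ Finset.range k, (g (j + i + 1).natAbs : ℤ) ≤
      ∑ i ∈ Finset.range k, (g (n + i + 1).natAbs : ℤ) := by
    apply Finset.sum_le_sum
    intro i _
    have : (j + i + 1).natAbs ≤ (n + i + 1).natAbs := by
      rw [abs_le] at h1
      omega
    exact_mod_cast hg this
  linarith

variable {𝕂 : Type*} [RCLike 𝕂]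

/-- the weight `w n = exp (-g |n|)` -/
noncomputable def wt (g : ℕ → ℕ) (n : ℤ) : ℝ := Real.exp (-(g n.natAbs : ℝ))

theorem wt_pos (g : ℕ → ℕ) (n : ℤ) : 0 < wt g n := Real.exp_pos _

theorem wt_le_one (g : ℕ → ℕ) (n : ℤ) : wt g n ≤ 1 := by
  unfold wt
  rw [Real.exp_le_one_iff]
  simp

/-- the shift as a linear map -/
noncomputable def Tlin (g : ℕ → ℕ) : C₀(ℤ, 𝕂) →ₗ[𝕂] C₀(ℤ, 𝕂) where
  toFun x := mk0 (fun n => (wt g (n + 1) : 𝕂) * x (n + 1)) (by
    intro ε hε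
    have h1 := (fin_ge x hε).preimage (f := fun n : ℤ => n + 1)
      (fun a _ b _ h => by simpa using h)
    apply h1.subset
    intro n hn
    simp only [mem_ofPred_eq, mem_preimage] at hn ⊢
    refine hn.trans ?_
    rw [norm_mul, RCLike.norm_ofReal, abs_of_pos (wt_pos g _)]
    calc wt g (n + 1) * ‖x (n + 1)‖ ≤ 1 * ‖x (n + 1)‖ := by
          gcongr
          exact wt_le_one _ _
      _ = ‖x (n + 1)‖ := one_mul _)
  map_add' x y := by
    ext n
    simp [mul_add]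
  map_smul' c x := by
    ext n
    simp
    ring

/-- the bilateral weighted shift `T e_n = w_n e_{n-1}` -/
noncomputable def T (𝕂 : Type*) [RCLike 𝕂] (g : ℕ → ℕ) : C₀(ℤ, 𝕂) →L[𝕂] C₀(ℤ, 𝕂) :=
  (Tlin g).mkContinuous 1 (by
    intro x
    rw [one_mul]
    apply norm_le_of _ (norm_nonneg _)
    intro n
    change ‖(wt g (n + 1) : 𝕂) * x (n + 1)‖ ≤ ‖x‖
    rw [norm_mul, RCLike.norm_ofReal, abs_of_pos (wt_pos g _)]
    calc wt g (n + 1) * ‖x (n + 1)‖ ≤ 1 * ‖x‖ := by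
          gcongr
          · exact wt_le_one _ _
          · exact apply_le x _
      _ = ‖x‖ := one_mul _)

theorem T_apply (g : ℕ → ℕ) (x : C₀(ℤ, 𝕂)) (n : ℤ) :
    T 𝕂 g x n = (wt g (n + 1) : 𝕂) * x (n + 1) := rfl

theorem T_pow (g : ℕ → ℕ) (k : ℕ) (x : C₀(ℤ, 𝕂)) (n : ℤ) :
    (T 𝕂 g ^ k) x n = ((Real.exp (-(G g (n + k) - G g n : ℤ)) : ℝ) : 𝕂) * x (n + k) := by
  induction k generalizing n with
  | zero => simp
  | succ k ih =>
    rw [pow_succ', mul_apply_eq_comp, T_apply, ih]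
    rw [← mul_assoc, ← RCLike.ofReal_mul]
    have e : n + 1 + (k : ℤ) = n + ((k + 1 : ℕ) : ℤ) := by push_cast; ring
    rw [e]
    congr 2
    unfold wt
    rw [← Real.exp_add, G_succ]
    congr 1
    push_cast
    ring

/-- coordinate functional -/
noncomputable def ev (𝕂 : Type*) [RCLike 𝕂] (n : ℤ) : C₀(ℤ, 𝕂) →L[𝕂] 𝕂 :=
  LinearMap.mkContinuous ⟨⟨fun x => x n, fun _ _ => rfl⟩, fun _ _ => rfl⟩ 1 (by
    intro x
    rw [one_mul]
    exact apply_le x n)

theorem ev_apply (n : ℤ) (x : C₀(ℤ, 𝕂)) : ev 𝕂 n x = x n := rfl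

/-- unit vector -/
noncomputable def ue (𝕂 : Type*) [RCLike 𝕂] (n : ℤ) : C₀(ℤ, 𝕂) :=
  mk0 (fun p => if p = n then 1 else 0) (by
    intro ε hε
    apply (finite_singleton n).subset
    intro p hp
    simp only [mem_ofPred_eq] at hp
    by_contra h
    rw [if_neg (by simpa using h), norm_zero] at hp
    exact absurd hp (not_le.2 hε))

theorem ue_apply (n p : ℤ) : ue 𝕂 n p = if p = n then 1 else 0 := rfl

theorem sum_coe {ι : Type*} (s : Finset ι) (v : ι → C₀(ℤ, 𝕂)) (p : ℤ) :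
    (∑ k ∈ s, v k) p = ∑ k ∈ s, v k p := by
  exact map_sum (ev 𝕂 p) v s

theorem T_compact (hg : Tendsto g atTop atTop) : IsCompactOperator (T 𝕂 g) := by
  -- finite rank approximations
  set F : ℕ → (C₀(ℤ, 𝕂) →L[𝕂] C₀(ℤ, 𝕂)) := fun N =>
    ∑ n ∈ Finset.Icc (-(N : ℤ)) N, ((wt g (n + 1) : 𝕂) • ev 𝕂 (n + 1)).smulRight (ue 𝕂 n) with hF
  have hFc : ∀ N, IsCompactOperator (F N) := by
    intro N
    have h1 : ∀ n : ℤ, IsCompactOperator
        (((wt g (n + 1) : 𝕂) • ev 𝕂 (n + 1)).smulRight (ue 𝕂 n)) := by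
      intro n
      have h2 : IsCompactOperator ((wt g (n + 1) : 𝕂) • ev 𝕂 (n + 1) : C₀(ℤ, 𝕂) →L[𝕂] 𝕂) :=
        isCompactOperator_of_locallyCompactSpace_dom _
      exact h2.clm_comp ((ContinuousLinearMap.id 𝕂 𝕂).smulRight (ue 𝕂 n))
    simp only [hF]
    induction Finset.Icc (-(N : ℤ)) N using Finset.cons_induction with
    | empty =>
      rw [Finset.sum_empty]
      exact isCompactOperator_zero
    | cons a s ha ih =>
      rw [Finset.sum_cons]
      exact (h1 a).add ih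
  have hFa : ∀ N x (p : ℤ), F N x p =
      if p ∈ Finset.Icc (-(N : ℤ)) N then (wt g (p + 1) : 𝕂) * x (p + 1) else 0 := by
    intro N x p
    simp only [hF]
    rw [sum_apply, sum_coe]
    simp only [ContinuousLinearMap.smulRight_apply, smul_apply, ev_apply,
      smul_eq_mul, ZeroAtInftyContinuousMap.smul_apply, ue_apply, mul_ite, mul_one, mul_zero]
    rw [Finset.sum_ite_eq]
  have hlim0 : Tendsto (fun N => ‖F N - T 𝕂 g‖) atTop (𝓝 0) := by
    rw [Metric.tendsto_atTop]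
    intro ε hε
    -- weights small
    obtain ⟨K, hK⟩ : ∃ K : ℕ, Real.exp (-(K : ℝ)) < ε := by
      have : Tendsto (fun n : ℕ => Real.exp (-(n : ℝ))) atTop (𝓝 0) :=
        Real.tendsto_exp_atBot.comp (tendsto_neg_atTop_atBot.comp tendsto_natCast_atTop_atTop)
      exact (this.eventually (gt_mem_nhds hε)).exists
    obtain ⟨N0, hN0⟩ := (tendsto_atTop.1 hg K).exists_forall_of_atTop
    refine ⟨N0 + 1, fun N hN => ?_⟩
    have h5 : ‖F N - T 𝕂 g‖ ≤ Real.exp (-(K : ℝ)) := by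
      apply ContinuousLinearMap.opNorm_le_bound _ (Real.exp_pos _).le
      intro x
      apply norm_le_of _ (by positivity)
      intro p
      rw [sub_apply, ZeroAtInftyContinuousMap.sub_apply, hFa, T_apply]
      split_ifs with hp
      · rw [sub_self, norm_zero]
        positivity
      · rw [zero_sub, norm_neg, norm_mul, RCLike.norm_ofReal, abs_of_pos (wt_pos g _)]
        have h1 : K ≤ g (p + 1).natAbs := by
          apply hN0
          rw [Finset.mem_Icc] at hp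
          omega
        have h2 : wt g (p + 1) ≤ Real.exp (-(K : ℝ)) := by
          unfold wt
          rw [Real.exp_le_exp]
          have : (K : ℝ) ≤ (g (p + 1).natAbs : ℝ) := by exact_mod_cast h1
          linarith
        have h3 := apply_le x (p + 1)
        have h4 := wt_pos g (p + 1)
        gcongr
    have h6 : 0 ≤ ‖F N - T 𝕂 g‖ := ContinuousLinearMap.opNorm_nonneg _
    rw [Real.dist_eq, sub_zero]
    exact lt_of_le_of_lt (abs_le.2 ⟨by linarith [Real.exp_pos (-(K : ℝ))], h5⟩) hK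
  have hlim : Tendsto F atTop (𝓝 (T 𝕂 g)) :=
    (tendsto_iff_norm_sub_tendsto_zero (E := C₀(ℤ, 𝕂) →L[𝕂] C₀(ℤ, 𝕂))).2 hlim0
  exact isCompactOperator_of_tendsto hlim (Eventually.of_forall hFc)

/-- finitely supported vectors are dense -/
theorem dense_fin : Dense {x : C₀(ℤ, 𝕂) | {n | x n ≠ 0}.Finite} := by
  intro x
  rw [Metric.mem_closure_iff]
  intro ε hε
  classical
  refine ⟨mk0 (fun n => if ε / 2 ≤ ‖x n‖ then x n else 0) ?_, ?_, ?_⟩
  · intro δ hδ
    apply (fin_ge x (half_pos hε)).subset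
    intro n hn
    simp only [mem_ofPred_eq] at hn ⊢
    by_contra h
    rw [if_neg h, norm_zero] at hn
    exact absurd hn (not_le.2 hδ)
  · apply (fin_ge x (half_pos hε)).subset
    intro n hn
    simp only [mem_ofPred_eq, mk0_apply] at hn ⊢
    by_contra h
    rw [if_neg h] at hn
    exact hn rfl
  · rw [dist_eq_norm]
    refine lt_of_le_of_lt (norm_le_of _ (half_pos hε).le ?_) (half_lt_self hε)
    intro n
    rw [ZeroAtInftyContinuousMap.sub_apply, mk0_apply]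
    split_ifs with h
    · rw [sub_self, norm_zero]; positivity
    · rw [sub_zero]; exact (not_le.1 h).le

theorem T_denseRange : DenseRange (T 𝕂 g) := by
  apply dense_fin.mono
  intro x hx
  refine ⟨mk0 (fun n => ((wt g n)⁻¹ : ℝ) * x (n - 1)) ?_, ?_⟩
  · intro ε hε
    have h1 := hx.preimage (f := fun n : ℤ => n - 1) (fun a _ b _ h => by simpa using h)
    apply h1.subset
    intro n hn
    simp only [mem_ofPred_eq, mem_preimage] at hn ⊢
    intro h0
    rw [h0, mul_zero, norm_zero] at hn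
    exact absurd hn (not_le.2 hε)
  · ext n
    rw [T_apply, mk0_apply, ← mul_assoc, ← RCLike.ofReal_mul,
      mul_inv_cancel₀ (wt_pos g (n + 1)).ne']
    simp

theorem T_not_supercyclic (hg : Monotone g) : ¬ Supercyclic 𝕂 (T 𝕂 g) := by
  rintro ⟨x', hx'⟩
  set D : Set C₀(ℤ, 𝕂) := {y | ∃ (c : 𝕂) (n : ℕ), y = c • (T 𝕂 g ^ n) x'} with hD
  obtain ⟨x, hxD, hx⟩ := Metric.dense_iff.1 hx' (ue 𝕂 0) (1 / 2) (by norm_num)
  -- D minus the first powers is dense
  obtain ⟨c0, n0, hx0⟩ := hx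
  have hdr : ∀ k, DenseRange (T 𝕂 g ^ k : C₀(ℤ, 𝕂) →L[𝕂] C₀(ℤ, 𝕂)) := by
    intro k
    induction k with
    | zero =>
      rw [pow_zero]
      exact Function.surjective_id.denseRange
    | succ k ih =>
      rw [pow_succ]
      exact ih.comp T_denseRange (T 𝕂 g ^ k).continuous
  have h1 := (hdr (n0 + 1)).dense_image (T 𝕂 g ^ (n0 + 1)).continuous hx'
  obtain ⟨y, hyD, hy⟩ := Metric.dense_iff.1 h1 (ue 𝕂 0) (1 / 4) (by norm_num)
  obtain ⟨_, ⟨c1, n1, rfl⟩, hy1⟩ := hy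
  -- `x ≠ 0`, `c0 ≠ 0`
  have hx2 : ∀ p, ‖x p - ue 𝕂 0 p‖ < 1 / 2 := by
    intro p
    rw [Metric.mem_ball, dist_eq_norm] at hxD
    have := apply_le (x - ue 𝕂 0) p
    rw [ZeroAtInftyContinuousMap.sub_apply] at this
    linarith
  have hy2 : ∀ p, ‖y p - ue 𝕂 0 p‖ < 1 / 4 := by
    intro p
    rw [Metric.mem_ball, dist_eq_norm] at hyD
    have := apply_le (y - ue 𝕂 0) p
    rw [ZeroAtInftyContinuousMap.sub_apply] at this
    linarith
  have hc0 : c0 ≠ 0 := by
    rintro rfl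
    have := hx2 0
    rw [hx0, zero_smul, ue_apply, if_pos rfl, ZeroAtInftyContinuousMap.zero_apply] at this
    norm_num at this
  set n := n1 + 1 with hn
  set c := c1 / c0 with hc
  have hyx : y = c • (T 𝕂 g ^ n) x := by
    rw [← hy1, hx0, map_smul, map_smul, smul_smul, hc, div_mul_cancel₀ _ hc0,
      ← mul_apply_eq_comp, ← mul_apply_eq_comp, ← pow_add, ← pow_add]
    congr 3
    omega
  have hyp : ∀ p, y p = c * (((Real.exp (-(G g (p + n) - G g p : ℤ)) : ℝ) : 𝕂) * x (p + n)) := by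
    intro p
    rw [hyx, ZeroAtInftyContinuousMap.smul_apply, T_pow, smul_eq_mul]
  have hn0 : (n : ℤ) ≠ 0 := by positivity
  -- position 0
  have a1 : 3 / 4 < ‖y 0‖ := by
    have h := hy2 0
    rw [ue_apply, if_pos rfl] at h
    have h2 : ‖(1 : 𝕂)‖ ≤ ‖y 0‖ + ‖y 0 - 1‖ := by
      calc ‖(1 : 𝕂)‖ = ‖y 0 - (y 0 - 1)‖ := by congr 1; ring
        _ ≤ ‖y 0‖ + ‖y 0 - 1‖ := norm_sub_le _ _
    rw [norm_one] at h2
    linarith
  have a2 : ‖x n‖ < 1 / 2 := by
    have h := hx2 n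
    rw [ue_apply, if_neg hn0, sub_zero] at h
    exact h
  have a3 : 1 / 2 < ‖x 0‖ := by
    have h := hx2 0
    rw [ue_apply, if_pos rfl] at h
    have h2 : ‖(1 : 𝕂)‖ ≤ ‖x 0‖ + ‖x 0 - 1‖ := by
      calc ‖(1 : 𝕂)‖ = ‖x 0 - (x 0 - 1)‖ := by congr 1; ring
        _ ≤ ‖x 0‖ + ‖x 0 - 1‖ := norm_sub_le _ _
    rw [norm_one] at h2
    linarith
  have a4 : ‖y (-n)‖ < 1 / 4 := by
    have h := hy2 (-n)
    rw [ue_apply, if_neg (neg_ne_zero.2 hn0), sub_zero] at h
    exact h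
  rw [hyp, norm_mul, norm_mul, RCLike.norm_ofReal, abs_of_pos (Real.exp_pos _)] at a1 a4
  rw [zero_add, G_zero, sub_zero] at a1
  rw [neg_add_cancel, G_zero, zero_sub, Int.cast_neg, neg_neg] at a4
  -- compare the weights
  have hG : -(G g n) ≤ G g (-n) := by
    have h1 := G_compare hg (j := -(n : ℤ)) (n := n) (by simp) n
    have h2 := G_compare hg (j := 0) (n := n) (by simp) n
    have h3 : G g (-(n : ℤ) + n) - G g (-n) ≤ G g (0 + n) - G g 0 := by
      rw [G_add, G_add]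
      have hs : ∑ i ∈ Finset.range n, (g (-(n : ℤ) + i + 1).natAbs : ℤ) ≤
          ∑ i ∈ Finset.range n, (g (0 + (i : ℤ) + 1).natAbs : ℤ) := by
        rw [← Finset.sum_range_reflect (fun i => (g (0 + (i : ℤ) + 1).natAbs : ℤ)) n]
        apply Finset.sum_le_sum
        intro i hi
        have hi' := Finset.mem_range.1 hi
        have : (-(n : ℤ) + i + 1).natAbs ≤ (0 + ((n - 1 - i : ℕ) : ℤ) + 1).natAbs := by omega
        exact_mod_cast hg this
      linarith
    rw [neg_add_cancel, zero_add, G_zero] at h3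
    linarith
  have hE : Real.exp (-((G g n : ℤ) : ℝ)) ≤ Real.exp ((G g (-n) : ℤ) : ℝ) := by
    rw [Real.exp_le_exp]
    exact_mod_cast hG
  set E1 := Real.exp (-((G g n : ℤ) : ℝ))
  set E2 := Real.exp ((G g (-n) : ℤ) : ℝ)
  have hE1 : 0 < E1 := Real.exp_pos _
  have hcn : 0 ≤ ‖c‖ := norm_nonneg _
  have b1 : ‖c‖ * (E1 * ‖x n‖) ≤ ‖c‖ * (E1 * (1 / 2)) := by gcongr
  have b2 : ‖c‖ * (E2 * (1 / 2)) ≤ ‖c‖ * (E2 * ‖x 0‖) := by
    have : 0 ≤ E2 := (Real.exp_pos _).le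
    gcongr
  have b3 : ‖c‖ * (E1 * (1 / 2)) ≤ ‖c‖ * (E2 * (1 / 2)) := by gcongr
  linarith

end Pool.Agent.R299.WS
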