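import Mathlib

/-!
# Weak closures, and tools on `c₀(ℤ)`
-/

namespace Pool.Agent.R299.WS

open Filter Set
open scoped Topology ZeroAtInfty

/-- `T` is supercyclic: some projective orbit is norm dense. -/
def Supercyclic (𝕂 : Type*) [NontriviallyNormedField 𝕂] {E : Type*} [NormedAddCommGroup E]
    [NormedSpace 𝕂 E] (T : E →L[𝕂] E) : Prop :=
  ∃ x : E, Dense {y : E | ∃ (c : 𝕂) (n : ℕ), y = c • (T ^ n) x}

/-- `T` is weakly supercyclic: some projective orbit is dense for the weak topology. -/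
def WeaklySupercyclic (𝕂 : Type*) [NontriviallyNormedField 𝕂] {E : Type*}
    [NormedAddCommGroup E] [NormedSpace 𝕂 E] (T : E →L[𝕂] E) : Prop :=
  ∃ x : E, Dense (toWeakSpace 𝕂 E '' {y : E | ∃ (c : 𝕂) (n : ℕ), y = c • (T ^ n) x})

section weak

variable {𝕂 E : Type*} [NontriviallyNormedField 𝕂] [NormedAddCommGroup E] [NormedSpace 𝕂 E]

theorem mem_closure_weak {A : Set E} {z : E}
    (h : ∀ (s : Finset (E →L[𝕂] 𝕂)) (ε : ℝ), 0 < ε → ∃ a ∈ A, ∀ f ∈ s, ‖f a - f z‖ < ε) :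
    toWeakSpace 𝕂 E z ∈ closure (toWeakSpace 𝕂 E '' A) := by
  rw [mem_closure_iff]
  intro o ho hz
  obtain ⟨U, hU, rfl⟩ := isOpen_induced_iff.1 ho
  rw [isOpen_pi_iff] at hU
  obtain ⟨I, u, hu, hIu⟩ := hU _ hz
  have h1 : ∀ f ∈ I, ∃ ε > 0, Metric.ball (f z) ε ⊆ u f := by
    intro f hf
    exact Metric.isOpen_iff.1 (hu f hf).1 _ (hu f hf).2
  choose! ε hε hb using h1
  have h2 : ∃ δ : ℝ, 0 < δ ∧ ∀ f ∈ I, δ ≤ ε f := by
    rcases I.eq_empty_or_nonempty with rfl | hne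
    · exact ⟨1, one_pos, by simp⟩
    · refine ⟨I.inf' hne ε, ?_, fun f hf => Finset.inf'_le _ hf⟩
      rw [Finset.lt_inf'_iff]
      exact fun f hf => hε f hf
  obtain ⟨δ, hδ, hδε⟩ := h2
  obtain ⟨a, ha, haf⟩ := h I δ hδ
  refine ⟨toWeakSpace 𝕂 E a, ?_, mem_image_of_mem _ ha⟩
  apply hIu
  intro f hf
  apply hb f hf
  rw [Metric.mem_ball, dist_eq_norm]
  exact (haf f hf).trans_le (hδε f hf)

/-- density for the weak topology from approximations of a norm dense set -/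
theorem dense_weak {A Z : Set E} (hZ : Dense Z)
    (h : ∀ z ∈ Z, ∀ (s : Finset (E →L[𝕂] 𝕂)) (ε : ℝ), 0 < ε →
      ∃ a ∈ A, ∀ f ∈ s, ‖f a - f z‖ < ε) :
    Dense (toWeakSpace 𝕂 E '' A) := by
  have h1 : toWeakSpace 𝕂 E '' Z ⊆ closure (toWeakSpace 𝕂 E '' A) := by
    rintro _ ⟨z, hz, rfl⟩
    exact mem_closure_weak (h z hz)
  have h2 : Dense (toWeakSpace 𝕂 E '' Z) := by
    have hr : DenseRange (toWeakSpaceCLM 𝕂 E) :=
      (toWeakSpaceCLM_bijective (𝕜 := 𝕂) (E := E)).surjective.denseRange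
    exact hr.dense_image (toWeakSpaceCLM 𝕂 E).continuous hZ
  exact dense_closure.1 (h2.mono h1)

end weak

section c0

variable {𝕂 : Type*} [RCLike 𝕂]

theorem cof (f : ℤ → 𝕂) : Tendsto f (cocompact ℤ) (𝓝 0) ↔ ∀ ε > 0, {n | ε ≤ ‖f n‖}.Finite := by
  rw [cocompact_eq_cofinite, tendsto_zero_iff_norm_tendsto_zero, Metric.tendsto_nhds]
  constructor
  · intro h ε hε
    have := h ε hε
    rw [eventually_cofinite] at this
    apply this.subset
    intro n hn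
    simp only [mem_ofPred_eq, dist_zero_right, norm_norm, not_lt] at hn ⊢
    exact hn
  · intro h ε hε
    rw [eventually_cofinite]
    apply (h ε hε).subset
    intro n hn
    simp only [mem_ofPred_eq, dist_zero_right, norm_norm, not_lt] at hn ⊢
    exact hn

/-- element of `c₀(ℤ)` from a function -/
def mk0 (f : ℤ → 𝕂) (hf : ∀ ε > 0, {n | ε ≤ ‖f n‖}.Finite) : C₀(ℤ, 𝕂) where
  toFun := f
  continuous_toFun := continuous_of_discreteTopology
  zero_at_infty' := (cof f).2 hf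

@[simp]
theorem mk0_apply (f : ℤ → 𝕂) (hf : ∀ ε > 0, {n | ε ≤ ‖f n‖}.Finite) (n : ℤ) :
    mk0 f hf n = f n := rfl

theorem fin_ge (x : C₀(ℤ, 𝕂)) {ε : ℝ} (hε : 0 < ε) : {n | ε ≤ ‖x n‖}.Finite :=
  (cof x).1 (zero_at_infty x) ε hε

theorem norm_le_of (x : C₀(ℤ, 𝕂)) {C : ℝ} (hC : 0 ≤ C) (h : ∀ n, ‖x n‖ ≤ C) : ‖x‖ ≤ C := by
  rw [← ZeroAtInftyContinuousMap.norm_toBCF_eq_norm, BoundedContinuousFunction.norm_le hC]
  exact h

theorem apply_le (x : C₀(ℤ, 𝕂)) (n : ℤ) : ‖x n‖ ≤ ‖x‖ := by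
  rw [← ZeroAtInftyContinuousMap.norm_toBCF_eq_norm]
  exact x.toBCF.norm_coe_le_norm n

/-- `∑ |f (v k)| ≤ C ‖f‖` when every position carries total mass at most `C` -/
theorem sum_functional {ι : Type*} (s : Finset ι) (v : ι → C₀(ℤ, 𝕂)) {C : ℝ} (hC : 0 ≤ C)
    (h : ∀ p, ∑ k ∈ s, ‖v k p‖ ≤ C) (f : C₀(ℤ, 𝕂) →L[𝕂] 𝕂) :
    ∑ k ∈ s, ‖f (v k)‖ ≤ C * ‖f‖ := by
  -- choose unimodular scalars
  have h1 : ∀ k, ∃ θ : 𝕂, ‖θ‖ ≤ 1 ∧ θ * f (v k) = ((‖f (v k)‖ : ℝ) : 𝕂) := by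
    intro k
    rcases eq_or_ne (f (v k)) 0 with h0 | h0
    · exact ⟨0, by simp, by simp [h0]⟩
    · refine ⟨((‖f (v k)‖ : ℝ) : 𝕂) / f (v k), ?_, by field_simp⟩
      rw [norm_div, RCLike.norm_ofReal, abs_norm, div_self (norm_ne_zero_iff.2 h0)]
  choose θ hθ hθf using h1
  have h2 : f (∑ k ∈ s, θ k • v k) = ((∑ k ∈ s, ‖f (v k)‖ : ℝ) : 𝕂) := by
    rw [map_sum]
    push_cast
    apply Finset.sum_congr rfl
    intro k _
    rw [map_smul, smul_eq_mul, hθf]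
  have h3 : ‖∑ k ∈ s, θ k • v k‖ ≤ C := by
    apply norm_le_of _ hC
    intro p
    have e : (∑ k ∈ s, θ k • v k) p = ∑ k ∈ s, θ k * v k p := by
      induction s using Finset.cons_induction with
      | empty => simp
      | cons a s ha ih =>
        rw [Finset.sum_cons, Finset.sum_cons, ZeroAtInftyContinuousMap.add_apply,
          ZeroAtInftyContinuousMap.smul_apply, smul_eq_mul]
        congr 1
        apply ih
        · intro p
          refine le_trans ?_ (h p)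
          rw [Finset.sum_cons]
          linarith [norm_nonneg (v a p)]
        · rw [map_sum]
          push_cast
          apply Finset.sum_congr rfl
          intro k _
          rw [map_smul, smul_eq_mul, hθf]
    rw [e]
    refine (norm_sum_le _ _).trans (le_trans (Finset.sum_le_sum fun k _ => ?_) (h p))
    rw [norm_mul]
    calc ‖θ k‖ * ‖v k p‖ ≤ 1 * ‖v k p‖ := by gcongr; exact hθ k
      _ = ‖v k p‖ := one_mul _
  have h4 : 0 ≤ ∑ k ∈ s, ‖f (v k)‖ := Finset.sum_nonneg fun _ _ => norm_nonneg _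
  calc ∑ k ∈ s, ‖f (v k)‖ = ‖f (∑ k ∈ s, θ k • v k)‖ := by
        rw [h2, RCLike.norm_ofReal, abs_of_nonneg h4]
    _ ≤ ‖f‖ * ‖∑ k ∈ s, θ k • v k‖ := f.le_opNorm _
    _ ≤ ‖f‖ * C := by gcongr
    _ = C * ‖f‖ := mul_comm _ _

end c0

end Pool.Agent.R299.WS
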