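import Pool.Agent.R299.WS.Param

/-!
# The weakly supercyclic vector
-/

namespace Pool.Agent.R299.WS

open Filter Set
open scoped Topology ZeroAtInfty

variable {𝕂 : Type*} [RCLike 𝕂] {q : ℕ → ℕ} {B : ℕ → ℝ} (P : Par q B) (Z : ℕ → ℤ → 𝕂)

namespace Par

/-- the value at `p` of the summand `k` -/
noncomputable def val (k : ℕ × ℕ) (p : ℤ) : 𝕂 :=
  ((P.α k.1 * Real.exp ((G P.g p - G P.g (P.n k) - G P.g (p - P.n k) : ℤ) : ℝ) : ℝ) : 𝕂) *
    Z k.1 (p - P.n k)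

open Classical in
/-- the vector as a function -/
noncomputable def xf (p : ℤ) : 𝕂 :=
  if h : ∃ k, P.Act k p then P.val Z h.choose p else 0

theorem xf_act {k : ℕ × ℕ} {p : ℤ} (h : P.Act k p) : P.xf Z p = P.val Z k p := by
  unfold xf
  have h1 : ∃ k, P.Act k p := ⟨k, h⟩
  rw [dif_pos h1, P.act_unique h1.choose_spec h]

theorem xf_not {p : ℤ} (h : ¬ ∃ k, P.Act k p) : P.xf Z p = 0 := by
  unfold xf
  rw [dif_neg h]

variable {Z} (hB : ∀ r, 1 ≤ B r) (hZ : ∀ r j, ‖Z r j‖ ≤ B r)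
  (hZ0 : ∀ r j, (q r : ℤ) < |j| → Z r j = 0)

include hB hZ

theorem val_le {k : ℕ × ℕ} {p : ℤ} (h : P.Act k p) : ‖P.val Z k p‖ ≤ (1 / 2) ^ k.1 := by
  unfold val
  have h1 := P.hα k.1
  rw [norm_mul, RCLike.norm_ofReal, abs_of_pos (by positivity)]
  have h2 : Real.exp ((G P.g p - G P.g (P.n k) - G P.g (p - P.n k) : ℤ) : ℝ) ≤ DD P.M k.1 := by
    unfold DD
    rw [Real.exp_le_exp]
    exact_mod_cast P.E0 h
  have h3 := hZ k.1 (p - P.n k)
  have h4 := hB k.1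
  calc P.α k.1 * Real.exp ((G P.g p - G P.g (P.n k) - G P.g (p - P.n k) : ℤ) : ℝ) *
        ‖Z k.1 (p - P.n k)‖ ≤ P.α k.1 * DD P.M k.1 * B k.1 := by
        have : 0 ≤ DD P.M k.1 := (Real.exp_pos _).le
        gcongr
    _ = P.α k.1 * B k.1 * DD P.M k.1 := by ring
    _ ≤ _ := P.α_bound hB k.1

theorem xf_fin : ∀ ε > 0, {p | ε ≤ ‖P.xf Z p‖}.Finite := by
  intro ε hε
  obtain ⟨S, hS⟩ := exists_pow_lt_of_lt_one hε (by norm_num : (1 / 2 : ℝ) < 1)
  apply (finite_Icc (0 : ℤ) (P.M S)).subset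
  intro p hp
  simp only [mem_ofPred_eq] at hp
  by_cases h : ∃ k, P.Act k p
  · obtain ⟨k, hk⟩ := h
    rw [P.xf_act Z hk] at hp
    have h1 := P.val_le hB hZ hk
    have h2 : k.1 < S := by
      by_contra h3
      have : (1 / 2 : ℝ) ^ k.1 ≤ (1 / 2) ^ S :=
        pow_le_pow_of_le_one (by norm_num) (by norm_num) (not_lt.1 h3)
      linarith
    have h3 := P.n_le hk.1
    have h4 : P.M (k.1 + 1) ≤ P.M S := P.M_strict.monotone h2
    have h5 := P.q32 k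
    have h6 := abs_le.1 hk.2
    rw [mem_Icc]
    omega
  · rw [P.xf_not Z h, norm_zero] at hp
    exact absurd hp (not_le.2 hε)

/-- the vector -/
noncomputable def x : C₀(ℤ, 𝕂) := mk0 (P.xf Z) (P.xf_fin hB hZ)

/-- the approximation `λ_k T^{n_k} x` -/
noncomputable def y (k : ℕ × ℕ) : C₀(ℤ, 𝕂) :=
  ((Real.exp ((G P.g (P.n k) : ℤ) : ℝ) / P.α k.1 : ℝ) : 𝕂) • (T 𝕂 P.g ^ (P.n k)) (P.x hB hZ)

theorem y_apply (k : ℕ × ℕ) (p : ℤ) : P.y hB hZ k p =
    ((Real.exp ((G P.g (P.n k) + G P.g p - G P.g (p + P.n k) : ℤ) : ℝ) / P.α k.1 : ℝ) : 𝕂) *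
      P.xf Z (p + P.n k) := by
  unfold y
  rw [ZeroAtInftyContinuousMap.smul_apply, T_pow, smul_eq_mul, ← mul_assoc, ← RCLike.ofReal_mul]
  congr 2
  rw [div_mul_eq_mul_div, ← Real.exp_add]
  congr 2
  push_cast
  ring

theorem y_self {k : ℕ × ℕ} {p : ℤ} (h : P.Act k (p + P.n k)) : P.y hB hZ k p = Z k.1 p := by
  rw [y_apply, P.xf_act Z h]
  unfold val
  rw [← mul_assoc, ← RCLike.ofReal_mul, add_sub_cancel_right]
  have h1 := (P.hα k.1).ne'
  have : Real.exp ((G P.g (P.n k) + G P.g p - G P.g (p + P.n k) : ℤ) : ℝ) / P.α k.1 *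
      (P.α k.1 * Real.exp ((G P.g (p + P.n k) - G P.g (P.n k) - G P.g p : ℤ) : ℝ)) = 1 := by
    have e : ((G P.g (P.n k) + G P.g p - G P.g (p + P.n k) : ℤ) : ℝ) +
        ((G P.g (p + P.n k) - G P.g (P.n k) - G P.g p : ℤ) : ℝ) = 0 := by
      push_cast
      ring
    have e2 : ∀ a b : ℝ, Real.exp a / P.α k.1 * (P.α k.1 * Real.exp b) = Real.exp (a + b) := by
      intro a b
      rw [Real.exp_add]
      field_simp
    rw [e2, e, Real.exp_zero]
  rw [this]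
  simp

theorem y_other {k l : ℕ × ℕ} {p : ℤ} (h : P.Act l (p + P.n k)) :
    ‖P.y hB hZ k p‖ ≤ P.α l.1 / P.α k.1 *
      Real.exp ((G P.g (P.n k) + G P.g p - G P.g (P.n l) - G P.g (p + P.n k - P.n l) : ℤ) : ℝ) *
      B l.1 := by
  rw [y_apply, P.xf_act Z h]
  unfold val
  have hk := P.hα k.1
  have hl := P.hα l.1
  rw [← mul_assoc, ← RCLike.ofReal_mul, norm_mul, RCLike.norm_ofReal, abs_of_pos (by positivity)]
  have e : Real.exp ((G P.g (P.n k) + G P.g p - G P.g (p + P.n k) : ℤ) : ℝ) / P.α k.1 *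
      (P.α l.1 * Real.exp ((G P.g (p + P.n k) - G P.g (P.n l) -
        G P.g (p + P.n k - P.n l) : ℤ) : ℝ)) =
      P.α l.1 / P.α k.1 *
      Real.exp ((G P.g (P.n k) + G P.g p - G P.g (P.n l) -
        G P.g (p + P.n k - P.n l) : ℤ) : ℝ) := by
    have e2 : ((G P.g (P.n k) + G P.g p - G P.g (P.n l) - G P.g (p + P.n k - P.n l) : ℤ) : ℝ) =
        ((G P.g (P.n k) + G P.g p - G P.g (p + P.n k) : ℤ) : ℝ) +
        ((G P.g (p + P.n k) - G P.g (P.n l) - G P.g (p + P.n k - P.n l) : ℤ) : ℝ) := by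
      push_cast
      ring
    rw [e2, Real.exp_add]
    field_simp
  rw [e]
  gcongr
  exact hZ _ _

/-- the constant of block `r` -/
noncomputable def C (P : Par q B) (r : ℕ) : ℝ := DD P.M r * B r / P.α r

omit hZ in
theorem C_pos (r : ℕ) : 0 < P.C r := by
  unfold C
  have := P.hα r
  have := P.DD_one r
  have := hB r
  positivity

theorem y_main {k l : ℕ × ℕ} {p : ℤ} (hk : P.V k) (h : P.Act l (p + P.n k)) (hlk : l ≠ k)
    (h1 : l.1 ≤ k.1) : ‖P.y hB hZ k p‖ ≤ P.C k.1 := by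
  refine (P.y_other hB hZ h).trans ?_
  have h2 : Real.exp ((G P.g (P.n k) + G P.g p - G P.g (P.n l) -
      G P.g (p + P.n k - P.n l) : ℤ) : ℝ) ≤ DD P.M k.1 := by
    unfold DD
    rw [Real.exp_le_exp]
    exact_mod_cast P.E1 hk h hlk h1
  have hk0 := P.hα k.1
  have hl0 := P.hα l.1
  have h3 : P.α l.1 * B l.1 ≤ B k.1 := by
    have h4 := hB l.1
    rcases eq_or_lt_of_le h1 with h5 | h5
    · rw [h5]
      have := P.α_le_one hB k.1
      have := hB k.1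
      nlinarith
    · have h6 := P.α_bound hB l.1
      have h7 := P.DD_one l.1
      have h8 : P.α l.1 * B l.1 ≤ P.α l.1 * B l.1 * DD P.M l.1 :=
        le_mul_of_one_le_right (by positivity) h7
      have h9 : (1 / 2 : ℝ) ^ l.1 ≤ 1 := pow_le_one₀ (by norm_num) (by norm_num)
      linarith [hB k.1]
  have hDD : 0 < DD P.M k.1 := Real.exp_pos _
  have hBl := hB l.1
  unfold C
  calc P.α l.1 / P.α k.1 * Real.exp ((G P.g (P.n k) + G P.g p - G P.g (P.n l) -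
      G P.g (p + P.n k - P.n l) : ℤ) : ℝ) * B l.1 ≤ P.α l.1 / P.α k.1 * DD P.M k.1 * B l.1 := by
        gcongr
    _ = (P.α l.1 * B l.1) * DD P.M k.1 / P.α k.1 := by ring
    _ ≤ B k.1 * DD P.M k.1 / P.α k.1 := by gcongr
    _ = DD P.M k.1 * B k.1 / P.α k.1 := by ring

theorem y_late {k l : ℕ × ℕ} {p : ℤ} (hk : P.V k) (h : P.Act l (p + P.n k))
    (h1 : k.1 < l.1) : ‖P.y hB hZ k p‖ ≤ (1 / 2) ^ (k.1 + 1) := by
  refine (P.y_other hB hZ h).trans ?_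
  have h2 : Real.exp ((G P.g (P.n k) + G P.g p - G P.g (P.n l) -
      G P.g (p + P.n k - P.n l) : ℤ) : ℝ) ≤ DD P.M l.1 := by
    unfold DD
    rw [Real.exp_le_exp]
    exact_mod_cast P.E2 hk h h1
  have hk0 := P.hα k.1
  have hl0 := P.hα l.1
  have hBl := hB l.1
  have h3 := P.α_bound' hB h1
  calc P.α l.1 / P.α k.1 * Real.exp ((G P.g (P.n k) + G P.g p - G P.g (P.n l) -
      G P.g (p + P.n k - P.n l) : ℤ) : ℝ) * B l.1 ≤ P.α l.1 / P.α k.1 * DD P.M l.1 * B l.1 := by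
        gcongr
    _ = (P.α l.1 * B l.1 * DD P.M l.1) / P.α k.1 := by ring
    _ ≤ ((1 / 2) ^ (k.1 + 1) * P.α k.1) / P.α k.1 := by gcongr
    _ = (1 / 2) ^ (k.1 + 1) := by field_simp

theorem y_zero {k : ℕ × ℕ} {p : ℤ} (h : ¬ ∃ l, P.Act l (p + P.n k)) : P.y hB hZ k p = 0 := by
  rw [y_apply, P.xf_not Z h, mul_zero]

open Classical in
/-- the main part of the error -/
noncomputable def v (k : ℕ × ℕ) : C₀(ℤ, 𝕂) :=
  mk0 (fun p => if ∃ l, P.Act l (p + P.n k) ∧ l ≠ k ∧ l.1 ≤ k.1 then P.y hB hZ k p else 0) (by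
    intro ε hε
    apply (fin_ge (P.y hB hZ k) hε).subset
    intro p hp
    simp only [mem_ofPred_eq] at hp ⊢
    by_contra h
    by_cases h2 : ∃ l, P.Act l (p + P.n k) ∧ l ≠ k ∧ l.1 ≤ k.1
    · rw [if_pos h2] at hp
      exact h hp
    · rw [if_neg h2, norm_zero] at hp
      exact absurd hp (not_le.2 hε))

open Classical in
theorem v_apply (k : ℕ × ℕ) (p : ℤ) : P.v hB hZ k p =
    if ∃ l, P.Act l (p + P.n k) ∧ l ≠ k ∧ l.1 ≤ k.1 then P.y hB hZ k p else 0 := rfl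

theorem v_sum (r : ℕ) (p : ℤ) :
    ∑ t ∈ Finset.range (P.m r), ‖P.v hB hZ (r, t) p‖ ≤ P.C r := by
  classical
  by_cases h : ∃ t ∈ Finset.range (P.m r), P.v hB hZ (r, t) p ≠ 0
  · obtain ⟨t, ht, hne⟩ := h
    have hV : P.V (r, t) := Finset.mem_range.1 ht
    rw [v_apply] at hne
    have h1 : ∃ l, P.Act l (p + P.n (r, t)) ∧ l ≠ (r, t) ∧ l.1 ≤ (r, t).1 := by
      by_contra h2
      rw [if_neg h2] at hne
      exact hne rfl
    obtain ⟨l, hl1, hl2, hl3⟩ := h1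
    rw [Finset.sum_eq_single_of_mem t ht]
    · rw [v_apply, if_pos ⟨l, hl1, hl2, hl3⟩]
      exact P.y_main hB hZ hV hl1 hl2 hl3
    · intro t' ht' htt
      rw [v_apply]
      split_ifs with h2
      · obtain ⟨l', hl1', hl2', hl3'⟩ := h2
        have hV' : P.V (r, t') := Finset.mem_range.1 ht'
        have := P.sep hV' hV rfl hl1' hl1 hl2' hl2 hl3' hl3
        exact absurd (Prod.ext_iff.1 this).2 htt
      · simp
  · push Not at h
    rw [Finset.sum_eq_zero]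
    · exact (P.C_pos hB r).le
    · intro t ht
      rw [h t ht, norm_zero]

include hZ0

theorem err {k : ℕ × ℕ} (hk : P.V k) {z : C₀(ℤ, 𝕂)} (hz : ∀ p, z p = Z k.1 p) :
    ‖P.y hB hZ k - z - P.v hB hZ k‖ ≤ (1 / 2) ^ (k.1 + 1) := by
  classical
  apply norm_le_of _ (by positivity)
  intro p
  rw [ZeroAtInftyContinuousMap.sub_apply, ZeroAtInftyContinuousMap.sub_apply, hz, v_apply]
  have hself : P.Act k (p + P.n k) ↔ |p| ≤ q k.1 := by
    unfold Act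
    rw [add_sub_cancel_right]
    exact ⟨fun h => h.2, fun h => ⟨hk, h⟩⟩
  by_cases h : ∃ l, P.Act l (p + P.n k)
  · obtain ⟨l, hl⟩ := h
    rcases eq_or_ne l k with rfl | hlk
    · rw [P.y_self hB hZ hl, if_neg]
      · simp
      · rintro ⟨l', hl', hne, -⟩
        exact hne (P.act_unique hl' hl)
    · have hp : (q k.1 : ℤ) < |p| := by
        by_contra h2
        exact hlk (P.act_unique hl (hself.2 (not_lt.1 h2)))
      rw [hZ0 k.1 p hp, sub_zero]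
      rcases le_or_gt l.1 k.1 with h3 | h3
      · rw [if_pos ⟨l, hl, hlk, h3⟩, sub_self, norm_zero]
        positivity
      · rw [if_neg, sub_zero]
        · exact P.y_late hB hZ hk hl h3
        · rintro ⟨l', hl', -, h4⟩
          rw [P.act_unique hl' hl] at h4
          omega
  · have hp : (q k.1 : ℤ) < |p| := by
      by_contra h2
      exact h ⟨k, hself.2 (not_lt.1 h2)⟩
    rw [hZ0 k.1 p hp, P.y_zero hB hZ h]
    simp

/-- approximation in the weak sense along a block -/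
theorem approx {r : ℕ} {z : C₀(ℤ, 𝕂)} (hz : ∀ p, z p = Z r p) (s : Finset (C₀(ℤ, 𝕂) →L[𝕂] 𝕂))
    {ε : ℝ} (hε : 0 < ε) (h1 : ∀ f ∈ s, (1 / 2) ^ (r + 1) * ‖f‖ < ε / 2)
    (h2 : ∑ f ∈ s, ‖f‖ < ((r : ℝ) + 1) * (ε / 2)) :
    ∃ t, t < P.m r ∧ ∀ f ∈ s, ‖f (P.y hB hZ (r, t)) - f z‖ < ε := by
  by_contra hcon
  push Not at hcon
  have hC := P.C_pos hB r
  have h3 : ∀ t ∈ Finset.range (P.m r), ε / 2 ≤ ∑ f ∈ s, ‖f (P.v hB hZ (r, t))‖ := by
    intro t ht
    obtain ⟨f, hf, hfe⟩ := hcon t (Finset.mem_range.1 ht)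
    have h4 := P.err hB hZ hZ0 (k := (r, t)) (Finset.mem_range.1 ht) hz
    have h5 : f (P.y hB hZ (r, t)) - f z =
        f (P.v hB hZ (r, t)) + f (P.y hB hZ (r, t) - z - P.v hB hZ (r, t)) := by
      rw [map_sub, map_sub]
      ring
    have h6 : ‖f (P.y hB hZ (r, t) - z - P.v hB hZ (r, t))‖ ≤ (1 / 2) ^ (r + 1) * ‖f‖ := by
      refine (f.le_opNorm _).trans ?_
      rw [mul_comm]
      gcongr
    have h7 : ε ≤ ‖f (P.v hB hZ (r, t))‖ + ‖f (P.y hB hZ (r, t) - z - P.v hB hZ (r, t))‖ := by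
      rw [h5] at hfe
      exact hfe.trans (norm_add_le _ _)
    have h8 := h1 f hf
    have h9 : ‖f (P.v hB hZ (r, t))‖ ≤ ∑ f ∈ s, ‖f (P.v hB hZ (r, t))‖ :=
      Finset.single_le_sum (f := fun f : C₀(ℤ, 𝕂) →L[𝕂] 𝕂 => ‖f (P.v hB hZ (r, t))‖)
        (fun _ _ => norm_nonneg _) hf
    linarith
  have h4 := Finset.sum_le_sum h3
  rw [Finset.sum_const, Finset.card_range, nsmul_eq_mul, Finset.sum_comm] at h4
  have h5 : ∑ f ∈ s, ∑ t ∈ Finset.range (P.m r), ‖f (P.v hB hZ (r, t))‖ ≤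
      ∑ f ∈ s, P.C r * ‖f‖ := by
    apply Finset.sum_le_sum
    intro f _
    exact sum_functional _ (fun t => P.v hB hZ (r, t)) hC.le (fun p => P.v_sum hB hZ r p) f
  rw [← Finset.mul_sum] at h5
  have h6 : ((r : ℝ) + 1) * P.C r ≤ P.m r := P.hm r
  have h7 : ((r : ℝ) + 1) * P.C r * (ε / 2) ≤ P.C r * ∑ f ∈ s, ‖f‖ := by
    calc ((r : ℝ) + 1) * P.C r * (ε / 2) ≤ (P.m r : ℝ) * (ε / 2) := by gcongr
      _ ≤ _ := h4.trans h5
  have h8 : P.C r * (((r : ℝ) + 1) * (ε / 2)) ≤ P.C r * ∑ f ∈ s, ‖f‖ := by linarith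
  have h9 := le_of_mul_le_mul_left h8 hC
  linarith

end Par

/-- the countable dense set -/
noncomputable def dd (𝕂 : Type*) [RCLike 𝕂] : ℕ → 𝕂
  | 0 => 0
  | i + 1 => TopologicalSpace.denseSeq 𝕂 i

noncomputable def zz (𝕂 : Type*) [RCLike 𝕂] (φ : ℤ →₀ ℕ) : C₀(ℤ, 𝕂) :=
  mk0 (fun p => dd 𝕂 (φ p)) (by
    intro ε hε
    apply φ.hasFiniteSupport.subset
    intro p hp
    simp only [mem_ofPred_eq, Function.mem_support] at hp ⊢
    intro h0
    rw [h0, dd, norm_zero] at hp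
    exact absurd hp (not_le.2 hε))

theorem zz_dense : Dense (range (zz 𝕂)) := by
  classical
  intro y
  rw [Metric.mem_closure_iff]
  intro ε hε
  have h1 : ∀ p, ∃ i, dist (y p) (TopologicalSpace.denseSeq 𝕂 i) < ε / 2 := by
    intro p
    obtain ⟨w, ⟨i, rfl⟩, hi⟩ := (TopologicalSpace.denseRange_denseSeq 𝕂).exists_dist_lt (y p) (half_pos hε) |>
      fun ⟨i, hi⟩ => (⟨_, ⟨i, rfl⟩, hi⟩ : ∃ w, w ∈ range (TopologicalSpace.denseSeq 𝕂) ∧
        dist (y p) w < ε / 2)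
    exact ⟨i, hi⟩
  choose i hi using h1
  set S := (fin_ge y (half_pos hε)).toFinset with hS
  refine ⟨zz 𝕂 (Finsupp.onFinset S (fun p => if p ∈ S then i p + 1 else 0) ?_), mem_range_self _, ?_⟩
  · intro p hp
    by_contra h
    rw [if_neg h] at hp
    exact hp rfl
  · rw [dist_eq_norm]
    refine lt_of_le_of_lt (norm_le_of _ (half_pos hε).le ?_) (half_lt_self hε)
    intro p
    rw [ZeroAtInftyContinuousMap.sub_apply]
    change ‖y p - dd 𝕂 (if p ∈ S then i p + 1 else 0)‖ ≤ ε / 2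
    split_ifs with hp
    · have := hi p
      rw [dist_eq_norm] at this
      exact this.le
    · rw [hS, Set.Finite.mem_toFinset] at hp
      simp only [mem_ofPred_eq, not_le] at hp
      rw [dd, sub_zero]
      exact hp.le

/-- the weighted shift is weakly supercyclic for suitable weights -/
theorem exists_weak (𝕂 : Type*) [RCLike 𝕂] : ∃ g : ℕ → ℕ, Monotone g ∧ Tendsto g atTop atTop ∧
    WeaklySupercyclic 𝕂 (T 𝕂 g) := by
  classical
  obtain ⟨e, he⟩ := exists_surjective_nat (ℤ →₀ ℕ)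
  set φ : ℕ → (ℤ →₀ ℕ) := fun r => e (Nat.unpair r).1 with hφ
  set q : ℕ → ℕ := fun r => (φ r).support.sup Int.natAbs with hq
  set B : ℕ → ℝ := fun r => 1 + ∑ p ∈ (φ r).support, ‖dd 𝕂 (φ r p)‖ with hBdef
  set Z : ℕ → ℤ → 𝕂 := fun r p => dd 𝕂 (φ r p) with hZdef
  have hB : ∀ r, 1 ≤ B r := by
    intro r
    have : 0 ≤ ∑ p ∈ (φ r).support, ‖dd 𝕂 (φ r p)‖ := Finset.sum_nonneg fun _ _ => norm_nonneg _
    simp only [hBdef]
    linarith
  have hZ : ∀ r j, ‖Z r j‖ ≤ B r := by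
    intro r j
    simp only [hBdef, hZdef]
    by_cases hj : j ∈ (φ r).support
    · have := Finset.single_le_sum (f := fun p => ‖dd 𝕂 (φ r p)‖) (fun _ _ => norm_nonneg _) hj
      linarith
    · rw [Finsupp.notMem_support_iff] at hj
      rw [hj, show dd 𝕂 0 = 0 from rfl, norm_zero]
      have : 0 ≤ ∑ p ∈ (φ r).support, ‖dd 𝕂 (φ r p)‖ := Finset.sum_nonneg fun _ _ => norm_nonneg _
      linarith
  have hZ0 : ∀ r j, (q r : ℤ) < |j| → Z r j = 0 := by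
    intro r j hj
    simp only [hZdef]
    have : j ∉ (φ r).support := by
      intro h
      have h1 : j.natAbs ≤ q r := Finset.le_sup (f := Int.natAbs) h
      rw [← Int.natCast_natAbs] at hj
      omega
    rw [Finsupp.notMem_support_iff] at this
    rw [this]
    rfl
  obtain ⟨P⟩ := exists_par q B hB
  refine ⟨P.g, P.g_mono, P.g_tendsto, P.x hB hZ, ?_⟩
  apply dense_weak zz_dense
  rintro _ ⟨ψ, rfl⟩ s ε hε
  obtain ⟨i, hi⟩ := he ψ
  -- a large block with target `ψ`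
  have h1 : ∀ᶠ r : ℕ in atTop, ∀ f ∈ s, (1 / 2 : ℝ) ^ (r + 1) * ‖f‖ < ε / 2 := by
    rw [Filter.eventually_all_finset]
    intro f _
    have : Tendsto (fun r : ℕ => (1 / 2 : ℝ) ^ (r + 1) * ‖f‖) atTop (𝓝 (0 * ‖f‖)) :=
      ((tendsto_pow_atTop_nhds_zero_of_lt_one (by norm_num) (by norm_num)).comp
        (tendsto_add_atTop_nat 1)).mul_const _
    rw [zero_mul] at this
    exact this.eventually (gt_mem_nhds (half_pos hε))
  have h2 : ∀ᶠ r : ℕ in atTop, ∑ f ∈ s, ‖f‖ < ((r : ℝ) + 1) * (ε / 2) := by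
    have : Tendsto (fun r : ℕ => ((r : ℝ) + 1) * (ε / 2)) atTop atTop :=
      (tendsto_atTop_add_const_right _ _ tendsto_natCast_atTop_atTop).atTop_mul_const (half_pos hε)
    exact this.eventually_gt_atTop _
  obtain ⟨R, hR⟩ := (h1.and h2).exists_forall_of_atTop
  obtain ⟨hR1, hR2⟩ := hR (Nat.pair i R) (Nat.right_le_pair i R)
  have hz : ∀ p, zz 𝕂 ψ p = Z (Nat.pair i R) p := by
    intro p
    simp only [hZdef, hφ, Nat.unpair_pair, hi]
    rfl
  obtain ⟨t, ht, hf⟩ := P.approx hB hZ hZ0 hz s hε hR1 hR2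
  exact ⟨P.y hB hZ (Nat.pair i R, t), ⟨_, _, rfl⟩, hf⟩

end Pool.Agent.R299.WS
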